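import Pool.Agent.W544.K3.Defs

/-!
# A hyperbolic element from a non-compact irreducible algebra (HYP)
-/

open Module Filter Topology
open Pool.Agent.W544.K3

namespace Pool.Agent.W253.K3

/-- a bilinear form as a multilinear form -/
def t2 {n : ℕ} (B : (Fin n → ℝ) →ₗ[ℝ] (Fin n → ℝ) →ₗ[ℝ] ℝ) :
    MultilinearMap ℝ (fun _ : Fin 2 => (Fin n → ℝ)) ℝ where
  toFun v := B (v 0) (v 1)
  map_update_add' := by
    intro _ v i x y
    fin_cases i
    · simp [Function.update]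
    · simp [Function.update]
  map_update_smul' := by
    intro _ v i c x
    fin_cases i
    · simp [Function.update]
    · simp [Function.update]

theorem t2_apply {n : ℕ} (B : (Fin n → ℝ) →ₗ[ℝ] (Fin n → ℝ) →ₗ[ℝ] ℝ)
    (v : Fin 2 → (Fin n → ℝ)) : t2 B v = B (v 0) (v 1) := rfl

theorem kills_t2 {n : ℕ} (B : (Fin n → ℝ) →ₗ[ℝ] (Fin n → ℝ) →ₗ[ℝ] ℝ)
    (y : End ℝ (Fin n → ℝ)) (hy : Skew B y) : Kills y (t2 B) := by
  intro v
  rw [Fin.sum_univ_two, t2_apply, t2_apply]
  have := hy (v 0) (v 1)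
  simpa [Function.update] using this

/-- the derivative of a curve in a closed subspace lies in the subspace -/
theorem deriv_mem {W : Type} [NormedAddCommGroup W] [NormedSpace ℝ W]
    (M : Submodule ℝ W) (hM : IsClosed (M : Set W)) (c : ℝ → W) (c' : W)
    (hc : HasDerivAt c c' 0) (hmem : ∀ s, c s ∈ M) : c' ∈ M := by
  rw [hasDerivAt_iff_tendsto_slope_zero] at hc
  refine hM.mem_of_tendsto hc ?_
  refine Filter.Eventually.of_forall fun t => ?_
  exact M.smul_mem _ (M.sub_mem (hmem _) (hmem _))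

theorem hyp : S_exp → S_comp → S_hyp := by
  intro hexp hcomp n h B U hU hBs hsk hirr hpos hneg
  classical
  choose E hE0 hEinv hEder hEstab hEten using hexp n
  set Gam : Submonoid (End ℝ (Fin n → ℝ)) :=
    Submonoid.closure {g | ∃ y ∈ h, ∃ s : ℝ, g = E y s} with hGam
  -- properties of the elements of Gam
  have P1 : ∀ g ∈ Gam, ∀ M : Submodule ℝ (Fin n → ℝ), (∀ y ∈ h, ∀ v ∈ M, y v ∈ M) →
      ∀ v ∈ M, g v ∈ M := by
    intro g hg M hM
    induction hg using Submonoid.closure_induction with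
    | mem x hx =>
      obtain ⟨y, hy, s, rfl⟩ := hx
      exact hEstab y M (hM y hy) s
    | one => intro v hv; exact hv
    | mul a b _ _ ha hb => intro v hv; exact ha _ (hb v hv)
  have P2 : ∀ g ∈ Gam, ∀ (k : ℕ) (t : MultilinearMap ℝ (fun _ : Fin k => (Fin n → ℝ)) ℝ),
      (∀ y ∈ h, Kills y t) → ∀ v, t (fun j => g (v j)) = t v := by
    intro g hg k t ht
    induction hg using Submonoid.closure_induction with
    | mem x hx =>
      obtain ⟨y, hy, s, rfl⟩ := hx
      exact hEten y k t (ht y hy) s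
    | one => intro v; rfl
    | mul a b _ _ ha hb =>
      intro v
      rw [← hb v]
      exact ha (fun j => b (v j))
  have P3 : ∀ g ∈ Gam, ∃ g' ∈ Gam, g * g' = 1 ∧ g' * g = 1 := by
    intro g hg
    induction hg using Submonoid.closure_induction with
    | mem x hx =>
      obtain ⟨y, hy, s, rfl⟩ := hx
      refine ⟨E y (-s), Submonoid.subset_closure ⟨y, hy, -s, rfl⟩, hEinv y s, ?_⟩
      have := hEinv y (-s)
      rwa [neg_neg] at this
    | one => exact ⟨1, Gam.one_mem, by simp, by simp⟩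
    | mul a b _ _ ha hb =>
      obtain ⟨a', ha', h1, h2⟩ := ha
      obtain ⟨b', hb', h3, h4⟩ := hb
      refine ⟨b' * a', Gam.mul_mem hb' ha', ?_, ?_⟩
      · calc a * b * (b' * a') = a * (b * b') * a' := by simp only [mul_assoc]
          _ = 1 := by rw [h3, mul_one, h1]
      · calc b' * a' * (a * b) = b' * (a' * a) * b := by simp only [mul_assoc]
          _ = 1 := by rw [h2, mul_one, h4]
  have P4 : ∀ g ∈ Gam, ∀ u v, B (g u) (g v) = B u v := by
    intro g hg u v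
    have := P2 g hg 2 (t2 B) (fun y hy => kills_t2 B y (hsk y hy)) ![u, v]
    simpa [t2_apply] using this
  -- the restrictions to U
  set G : Set (End ℝ U) := {g | ∃ γ ∈ Gam, ∀ u : U, ((g u : U) : Fin n → ℝ) = γ u} with hG
  have Gres : ∀ γ ∈ Gam, ∃ g ∈ G, ∀ u : U, ((g u : U) : Fin n → ℝ) = γ u := by
    intro γ hγ
    refine ⟨γ.restrict (P1 γ hγ U hU), ⟨γ, hγ, fun u => rfl⟩, fun u => rfl⟩
  have G1 : (1 : End ℝ U) ∈ G := ⟨1, Gam.one_mem, fun u => rfl⟩
  have G2 : ∀ g ∈ G, ∀ g' ∈ G, g * g' ∈ G := by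
    rintro g ⟨γ, hγ, e1⟩ g' ⟨γ', hγ', e2⟩
    refine ⟨γ * γ', Gam.mul_mem hγ hγ', fun u => ?_⟩
    rw [Module.End.mul_apply, Module.End.mul_apply, e1, e2]
  have G3 : ∀ g ∈ G, ∃ g' ∈ G, g * g' = 1 ∧ g' * g = 1 := by
    rintro g ⟨γ, hγ, e1⟩
    obtain ⟨γ', hγ', h1, h2⟩ := P3 γ hγ
    obtain ⟨g', hg', e2⟩ := Gres γ' hγ'
    refine ⟨g', hg', ?_, ?_⟩
    · ext u : 2
      rw [Module.End.mul_apply, e1, e2, ← Module.End.mul_apply, h1]
      rfl
    · ext u : 2
      rw [Module.End.mul_apply, e2, e1, ← Module.End.mul_apply, h2]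
      rfl
  have G4 : CIrr G := by
    intro M hJ hS
    set L : (U × U) →ₗ[ℝ] ((Fin n → ℝ) × (Fin n → ℝ)) := U.subtype.prodMap U.subtype with hL
    have hLa : ∀ p : U × U, L p = ((p.1 : Fin n → ℝ), (p.2 : Fin n → ℝ)) := fun p => rfl
    have hLinj : Function.Injective L := by
      intro p q hpq
      rw [hLa, hLa] at hpq
      have h1 := congrArg Prod.fst hpq
      have h2 := congrArg Prod.snd hpq
      exact Prod.ext (Subtype.ext h1) (Subtype.ext h2)
    set M' := M.map L with hM'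
    have c1 : ∀ p ∈ M', p.1 ∈ U ∧ p.2 ∈ U := by
      rintro p ⟨q, hq, rfl⟩
      exact ⟨q.1.2, q.2.2⟩
    have c2 : JStable M' := by
      rintro p ⟨q, hq, rfl⟩
      exact ⟨(-q.2, q.1), hJ q hq, rfl⟩
    have c3 : OpStable (h : Set (End ℝ (Fin n → ℝ))) M' := by
      rintro y hy p ⟨q, hq, rfl⟩
      have hcl : IsClosed (M' : Set ((Fin n → ℝ) × (Fin n → ℝ))) :=
        Submodule.closed_of_finiteDimensional M'
      have hd1 := hEder y 0 (q.1 : Fin n → ℝ)
      have hd2 := hEder y 0 (q.2 : Fin n → ℝ)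
      rw [hE0] at hd1 hd2
      have hd := hd1.prodMk hd2
      refine deriv_mem M' hcl (fun s => (E y s (q.1 : Fin n → ℝ), E y s (q.2 : Fin n → ℝ))) _ hd ?_
      intro s
      obtain ⟨g, hg, e⟩ := Gres (E y s) (Submonoid.subset_closure ⟨y, hy, s, rfl⟩)
      refine ⟨(g q.1, g q.2), hS g hg q hq, ?_⟩
      rw [hLa]
      simp only [e]
    rcases hirr M' c1 c2 c3 with hb | ht
    · left
      rw [eq_bot_iff]
      intro p hp
      have : L p ∈ M' := ⟨p, hp, rfl⟩
      rw [hb, Submodule.mem_bot] at this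
      rw [Submodule.mem_bot]
      exact hLinj (by rw [this, map_zero])
    · right
      rw [eq_top_iff]
      intro p _
      obtain ⟨q, hq, e⟩ := ht p.1 p.1.2 p.2 p.2.2
      have : q = p := hLinj (by rw [e]; rfl)
      rwa [← this]
  -- some element is not elliptic
  have key : ∃ g ∈ G, ∃ α β : ℝ, CEig g α β ∧ α ^ 2 + β ^ 2 ≠ 1 := by
    by_contra hcon
    push Not at hcon
    have hB' := hcomp U G G1 G2 G3 G4 (fun g hg α β hc => hcon g hg α β hc)
      (B.domRestrict₁₂ U U) (fun u v => hBs _ _) (by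
        rintro g ⟨γ, hγ, e⟩ u v
        change B (g u : Fin n → ℝ) (g v : Fin n → ℝ) = B (u : Fin n → ℝ) (v : Fin n → ℝ)
        rw [e, e]
        exact P4 γ hγ _ _)
    apply hB'
    obtain ⟨u, hu, h1⟩ := hpos
    obtain ⟨v, hv, h2⟩ := hneg
    exact ⟨⟨⟨u, hu⟩, h1⟩, ⟨⟨v, hv⟩, h2⟩⟩
  obtain ⟨g, ⟨γ, hγ, e⟩, α, β, ⟨u, v, huv, h1, h2⟩, hne⟩ := key
  obtain ⟨γ', hγ', k1, k2⟩ := P3 γ hγ
  refine ⟨LinearEquiv.ofLinearMap γ γ' k1 k2, ?_, ?_, α, β, hne, ?_⟩
  · intro k t ht w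
    exact P2 γ hγ k t ht w
  · intro M hM w hw
    exact P1 γ hγ M hM w hw
  · refine ⟨(u : Fin n → ℝ), (v : Fin n → ℝ), ?_, ?_, ?_⟩
    · rcases huv with h | h
      · left; intro h0; exact h (Subtype.ext h0)
      · right; intro h0; exact h (Subtype.ext h0)
    · change γ (u : Fin n → ℝ) = _
      rw [← e, h1]
      rfl
    · change γ (v : Fin n → ℝ) = _
      rw [← e, h2]
      rfl

end Pool.Agent.W253.K3
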